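import Mathlib
import Pool.Agent.Q134.PTPlanar

set_option autoImplicit false

/-!
# Adding a pendant vertex need not increase the tree-width threshold by one

Let `H_i` be the disjoint union of `c` triangles and a path with `i` vertices, so that `H_(i+1)` is
`H_i` with a pendant vertex added at the end of the path.  For suitable `c` there is a sparse graph
of tree-width at least `9 c` without `c` disjoint cycles, so `f(H_1) ≥ 8 c + 2`.  On the other hand
`f(H_j) ≤ j + 8 c` for some large `j`: one deletes disjoint cycles of length at most eight, at a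
cost of eight each, as long as there are any; in a graph without such cycles one deletes disjoint
cycles at a cost of `O(log j)` each, and then a graph without cycles of length at most eight has
a path that is longer, by a polynomial amount, than its tree-width guarantees.  So `f` does not
increase by exactly one in each of the `j - 1` steps.
-/

namespace Pool.Agent.Results.MP_420e77_co.PendantFails

open Pool.Agent.Q134.PT (Planar pendant)
open Pool.Agent.TH507.Host (tw IsMinor TwLE)

/-- `k = f(H)`: the least number `k` such that every nonempty finite graph of tree-width at least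
`k` contains `H` as a minor.  (The graph without vertices is left out: its tree-width is `-1` in the
usual convention, but `tw` gives it the value `0`.) -/
def IsThreshold {W : Type} (H : SimpleGraph W) (k : ℕ) : Prop :=
  IsLeast {k : ℕ | ∀ (V : Type) [Finite V] [Nonempty V] (G : SimpleGraph V),
    k ≤ tw G → IsMinor H G} k

theorem tw_empty {V : Type} [IsEmpty V] (G : SimpleGraph V) : tw G = 0 := by
  have h : TwLE G 0 := by
    refine ⟨1, ⊥, fun _ => ∅, ?_, fun v => isEmptyElim v, fun v => isEmptyElim v,
      fun v => isEmptyElim v, fun i => by simp⟩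
    exact SimpleGraph.IsTree.of_subsingleton
  exact Nat.le_zero.1 (Nat.sInf_le h)

/-- There are a finite planar graph `H` with at least one edge and a vertex `v` of `H` such that
`f(H') ≠ f(H) + 1` for the graph `H'` obtained from `H` by attaching a pendant vertex at `v`. -/
theorem result : ∃ (W : Type) (_ : Finite W) (H : SimpleGraph W) (v : W) (k k' : ℕ),
    Planar H ∧ H ≠ ⊥ ∧ IsThreshold H k ∧ IsThreshold (pendant H v) k' ∧ k' ≠ k + 1 := by
  classical
  obtain ⟨c, j, hj, hup, hlow⟩ := Pool.Agent.Q134.PT.bounds
  have hc : 0 < c := by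
    rcases Nat.eq_zero_or_pos c with rfl | h
    · exfalso
      have h1 := hlow 0 (fun V _ G _ => ⟨fun x => x.1.elim0, fun x => x.1.elim0,
        fun x => x.1.elim0, fun x => x.1.elim0⟩)
      omega
    · exact h
  have hne : ∀ i, Pool.Agent.Q134.PT.cp c i ≠ ⊥ := by
    intro i h
    have h1 : (Pool.Agent.Q134.PT.cp c i).Adj (Sum.inl (⟨0, hc⟩, 0)) (Sum.inl (⟨0, hc⟩, 1)) :=
      ⟨rfl, by simp⟩
    rw [h] at h1
    exact h1
  have hex : ∀ i, i + 1 ≤ j → ∃ k, ∀ (V : Type) [Finite V] [Nonempty V] (G : SimpleGraph V),
      k ≤ tw G → IsMinor (Pool.Agent.Q134.PT.cp c (i + 1)) G := fun i hi =>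
    ⟨_, fun V _ _ G hG => Pool.Agent.Q134.PT.minor_sub hi (hup V G hG)⟩
  have hth : ∀ i, i + 1 ≤ j → ∃ k, IsThreshold (Pool.Agent.Q134.PT.cp c (i + 1)) k := by
    intro i hi
    exact ⟨Nat.find (hex i hi), Nat.find_spec (hex i hi), fun k hk => Nat.find_min' (hex i hi) hk⟩
  by_contra hcon
  push Not at hcon
  have hpen : ∀ i k, IsThreshold (Pool.Agent.Q134.PT.cp c (i + 2)) k →
      IsThreshold (pendant (Pool.Agent.Q134.PT.cp c (i + 1)) (Sum.inr (Fin.last i))) k := by
    rintro i k ⟨h1, h2⟩
    refine ⟨fun V _ _ G hG => Pool.Agent.Q134.PT.minor_pendant.2 (h1 V G hG),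
      fun l hl => h2 ?_⟩
    intro V _ _ G hG
    exact Pool.Agent.Q134.PT.minor_pendant.1 (hl V G hG)
  have key : ∀ i, i + 1 ≤ j → ∀ k, IsThreshold (Pool.Agent.Q134.PT.cp c (i + 1)) k →
      8 * c + 2 + i ≤ k := by
    intro i
    induction i with
    | zero =>
      intro _ k hk
      have h1 := hlow (max k 1) (fun V _ G hG => by
        have hV : Nonempty V := by
          by_contra h
          rw [not_nonempty_iff] at h
          rw [tw_empty G] at hG
          omega
        exact Pool.Agent.Q134.PT.minor_tri (hk.1 V G (le_trans (le_max_left _ _) hG)))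
      omega
    | succ i ih =>
      intro hi k hk
      obtain ⟨l, hl⟩ := hth i (by omega)
      have h1 := ih (by omega) l hl
      have h2 := hcon _ inferInstance (Pool.Agent.Q134.PT.cp c (i + 1)) (Sum.inr (Fin.last i)) l k
        (Pool.Agent.Q134.PT.planar_cp c (i + 1)) (hne _) hl (hpen i k hk)
      omega
  obtain ⟨i, rfl⟩ : ∃ i, j = i + 1 := ⟨j - 1, by omega⟩
  obtain ⟨k, hk⟩ := hth i le_rfl
  have h1 := key i le_rfl k hk
  have h2 : k ≤ i + 1 + 8 * c := hk.2 (fun V _ _ G hG => hup V G hG)
  omega

end Pool.Agent.Results.MP_420e77_co.PendantFails
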